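import Pool.Agent.K3h46.AS.Stm2
import Pool.Agent.K3h4.AS.An2

/-!
Project AS2 of helper46, brick AN3: the conclusion at infinity, without conditions on the leading form.
-/

set_option autoImplicit false

namespace Pool.Agent.K3h58.AS

open Polynomial Pool.Agent.K3h46.AS Pool.Agent.K3h4.AS

theorem t_AN3 : S_AN3 := by
  intro p hpf d m F _ _ hd hdp hm φ g J s hφ0 hrel κ _ _ ι hι δ hδ hδp θ D hθ hD
    β₁ β₂ η₁ η₂ hF h1 h2 h3
  have hp := hpf.out
  have hp2 := hp.two_le
  obtain ⟨k, hk⟩ := hdp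
  have hkd : (p - 1) / d = k := by
    rw [hk]
    exact Nat.mul_div_cancel_left k hd
  have hk1 : 1 ≤ k := by
    rcases Nat.eq_zero_or_pos k with h | h
    · rw [h, Nat.mul_zero] at hk
      omega
    · exact h
  have hdle : d ≤ p - 1 := Nat.le_of_dvd (by omega) ⟨k, hk⟩
  rw [hkd] at hrel
  have hιφ : ι φ ≠ 0 := by
    intro h
    exact hφ0 (hι (by rw [h, map_zero]))
  have hcast : ∀ n : ℕ, 0 < n → n < p → (n : κ) ≠ 0 := by
    intro n h0 hn h
    rw [CharP.cast_eq_zero_iff κ p] at h
    exact absurd (Nat.le_of_dvd h0 h) (by omega)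
  have hcastF : (d : F[X]) ≠ 0 := by
    intro h
    have h5 : ((d : ℕ) : κ) = 0 := by
      have := congrArg ι h
      rwa [map_natCast, map_zero] at this
    exact hcast d hd (by omega) h5
  have hp0 : (p : κ) = 0 := CharP.cast_eq_zero κ p
  have hpz : (1 : ℤ) < (p : ℤ) := by exact_mod_cast hp.one_lt
  -- iterates of the derivative of polynomials
  have hιder : ∀ (n : ℕ) (h : F[X]), ι ((⇑derivative)^[n] h) = (⇑δ)^[n] (ι h) := by
    intro n h
    induction n with
    | zero => rfl
    | succ n ih => rw [Function.iterate_succ_apply', ← hδ, ih, Function.iterate_succ_apply']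
  have hderp : ∀ h : F[X], (⇑derivative)^[p] h = 0 := by
    intro h
    apply hι
    rw [hιder, hδp, map_zero]
  have hdp1 : ∀ h : F[X], (⇑derivative)^[p - 1] (derivative h) = 0 := by
    intro h
    rw [← Function.iterate_succ_apply, show (p - 1).succ = p from by omega, hderp]
  -- (1)
  have e1 : ∀ i : ℤ, i < 0 → i < (d : ℤ) - m → η₁.coeff i = 0 := by
    intro i hi0 hi
    by_contra hne
    have hη : η₁ ≠ 0 := by
      rintro rfl
      exact hne rfl
    obtain ⟨o, ho⟩ : ∃ o, o = η₁.order := ⟨_, rfl⟩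
    have hoi : o ≤ i := by
      rw [ho]
      exact HahnSeries.order_le_of_coeff_ne_zero hne
    have ho1 : ∀ j < o, η₁.coeff j = 0 := by
      intro j hj
      rw [ho] at hj
      exact HahnSeries.coeff_eq_zero_of_lt_order hj
    have ho2 : η₁.coeff o ≠ 0 := by
      rw [ho]
      exact HahnSeries.coeff_order_eq_zero.not.2 hη
    have h4 := (coeff_pow_low ho1 p).2
    rw [h1, HahnSeries.coeff_sub, coeff_theta_iter θ hθ, HahnSeries.coeff_add] at h4
    have h5 : β₁.coeff ((p : ℤ) * o) = 0 := by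
      apply hF.b1
      have : (d : ℤ) < p := by
        have : d < p := by omega
        exact_mod_cast this
      nlinarith
    have h6 : η₁.coeff ((p : ℤ) * o) = 0 := ho1 _ (by nlinarith)
    rw [h5, h6, add_zero, mul_zero, sub_zero] at h4
    exact ho2 (pow_eq_zero_iff hp.ne_zero |>.1 h4.symm)
  -- (2)
  have e2 : ∀ i : ℤ, i < -(m : ℤ) → η₂.coeff i = 0 := by
    intro i hi
    by_contra hne
    have hη : η₂ ≠ 0 := by
      rintro rfl
      exact hne rfl
    obtain ⟨o, ho⟩ : ∃ o, o = η₂.order := ⟨_, rfl⟩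
    have hoi : o ≤ i := by
      rw [ho]
      exact HahnSeries.order_le_of_coeff_ne_zero hne
    have ho1 : ∀ j < o, η₂.coeff j = 0 := by
      intro j hj
      rw [ho] at hj
      exact HahnSeries.coeff_eq_zero_of_lt_order hj
    have ho2 : η₂.coeff o ≠ 0 := by
      rw [ho]
      exact HahnSeries.coeff_order_eq_zero.not.2 hη
    have h4 := (coeff_pow_low ho1 p).2
    rw [h2, HahnSeries.coeff_neg, coeff_Delta_iter δ D hD, HahnSeries.coeff_add] at h4
    have h5 : β₂.coeff ((p : ℤ) * o) = 0 := by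
      apply hF.b2
      nlinarith
    have h6 : η₂.coeff ((p : ℤ) * o) = 0 := ho1 _ (by nlinarith)
    rw [h5, h6, add_zero, iter_zero, neg_zero] at h4
    exact ho2 (pow_eq_zero_iff hp.ne_zero |>.1 h4.symm)
  obtain ⟨e, he⟩ : ∃ e, e = η₂.coeff (-(m : ℤ)) := ⟨_, rfl⟩
  have e3 : (d : κ) * e ^ p =
      -(ι φ ^ (k * p * m) * ι ((⇑derivative)^[p - 1] (φ ^ (m * k - 1) * J))) := by
    have h4 := (coeff_pow_low e2 p).2
    rw [h2, HahnSeries.coeff_neg, coeff_Delta_iter δ D hD, HahnSeries.coeff_add, ← he] at h4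
    have h5 : η₂.coeff ((p : ℤ) * -(m : ℤ)) = 0 := e2 _ (by nlinarith)
    have h6 : (p : ℤ) * -(m : ℤ) = -((p : ℤ) * m) := by ring
    rw [h5, add_zero, h6] at h4
    have h7 := hF.b2t
    rw [hkd] at h7
    rw [← h4, mul_neg, ← iter_const_mul δ (d : κ) (Derivation.map_natCast δ d), h7,
      show k * p * m = (k * m) * p from by ring, pow_mul,
      iter_const_mul δ _ (der_pow_char δ p _), hιder]
  have e4 : ∀ i : ℤ, (i : κ) * η₂.coeff i - δ (η₁.coeff i) = (D β₁ - θ β₂).coeff i := by
    intro i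
    have h4 := congrArg (fun z : LaurentSeries κ => z.coeff i) h3
    beta_reduce at h4
    rw [map_add, map_add, HahnSeries.coeff_add, HahnSeries.coeff_add, hθ η₂, hD η₁] at h4
    rw [HahnSeries.coeff_sub]
    linear_combination h4
  rcases lt_trichotomy m d with hmd | hmd | hmd
  · -- m < d
    have h4 := e4 (-(m : ℤ))
    have hmd' : (m : ℤ) < d := by exact_mod_cast hmd
    have hm' : (1 : ℤ) ≤ m := by exact_mod_cast hm
    rw [e1 (-(m : ℤ)) (by omega) (by omega), map_zero, sub_zero, ← he,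
      hF.b3 (-(m : ℤ)) (by nlinarith)] at h4
    have h5 : ((-(m : ℤ) : ℤ) : κ) ≠ 0 := by
      push_cast
      exact neg_ne_zero.2 (hcast m (by omega) (by omega))
    have h6 : e = 0 := (mul_eq_zero.1 h4).resolve_left h5
    rw [h6, zero_pow hp.ne_zero, mul_zero] at e3
    have h7 : ι ((⇑derivative)^[p - 1] (φ ^ (m * k - 1) * J)) = 0 := by
      have := neg_eq_zero.1 e3.symm
      exact (mul_eq_zero.1 this).resolve_left (pow_ne_zero _ hιφ)
    have h8 : (⇑derivative)^[p - 1] (φ ^ (m * k - 1) * J) = 0 := hι (by rw [h7, map_zero])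
    have h9 := congrArg (⇑derivative)^[p - 1] hrel
    rw [iter_der_nat, h8, mul_zero, iter_der_add, iter_der_nat, iter_der_nat, hdp1, mul_zero,
      add_zero] at h9
    have h10 := (mul_eq_zero.1 h9.symm).resolve_left hcastF
    refine ⟨fun h => absurd h (by omega), fun _ => ?_, fun h => absurd h (by omega)⟩
    rw [hkd]
    exact h10
  · -- m = d
    subst hmd
    have hkm : k * (p + 1) * m = p ^ 2 - 1 := by
      have h5 : p = m * k + 1 := by omega
      have h6 : p ^ 2 - 1 = (p + 1) * (p - 1) := by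
        have := Nat.sq_sub_sq p 1
        rw [one_pow] at this
        exact this
      rw [h6, hk]
      ring
    have h4 := e4 (-(m : ℤ))
    have hm' : (1 : ℤ) ≤ m := by exact_mod_cast hm
    have h5 : -((p : ℤ) * m - m * (p - 1)) = -(m : ℤ) := by ring
    have h6 := hF.b3t
    rw [h5, ← h4, e1 (-(m : ℤ)) (by omega) (by omega), map_zero, sub_zero, ← he, hkd, hkm] at h6
    have h7 : (m : κ) * e = ι φ ^ (p - 1) * ι g := by
      have h8 : ι φ ^ (p ^ 2 - 1) ≠ 0 := pow_ne_zero _ hιφ
      apply mul_left_cancel₀ h8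
      push_cast at h6
      linear_combination -h6
    have h9 : (m : κ) ^ p = (m : κ) := by
      rw [← frobenius_def, map_natCast]
    have h10 : ((m : κ) * e) ^ p = (m : κ) * e ^ p := by rw [mul_pow, h9]
    have h11 : m * k = p - 1 := hk.symm
    rw [e3, h7, mul_pow, ← pow_mul, show k * p * m = (p - 1) * p from by rw [← h11]; ring] at h10
    have h12 : ι (g ^ p) = ι (-((⇑derivative)^[p - 1] (φ ^ (m * k - 1) * J))) := by
      rw [map_pow, map_neg]
      apply mul_left_cancel₀ (pow_ne_zero ((p - 1) * p) hιφ)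
      rw [h10]
      ring
    have h13 := hι h12
    have h14 : φ ^ (m * k - 1) * J = φ ^ (m * k) * g + derivative (φ ^ (m * k) * s) := by
      apply mul_left_cancel₀ hcastF
      rw [hrel]
      ring
    rw [h14, iter_der_add, hdp1, add_zero, h11] at h13
    refine ⟨fun h => absurd h (lt_irrefl _), fun h => absurd h (lt_irrefl _), fun _ => ⟨?_, e2, ?_⟩⟩
    · rw [h13]
      ring
    · rw [← he, h7, map_mul, map_pow]
  · -- m > d
    have hmd' : (d : ℤ) < m := by exact_mod_cast hmd
    have h4 := e4 (-((p : ℤ) * m - d * (p - 1)))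
    have h5 : -((p : ℤ) * m - d * (p - 1)) < -(m : ℤ) := by nlinarith
    have hm' : (1 : ℤ) ≤ m := by exact_mod_cast hm
    have hd' : (1 : ℤ) ≤ d := by exact_mod_cast hd
    rw [e1 _ (by omega) (by omega), e2 _ h5, mul_zero, map_zero, sub_zero] at h4
    have h6 := hF.b3t
    rw [← h4, zero_mul] at h6
    have h7 := (mul_eq_zero.1 (neg_eq_zero.1 h6.symm)).resolve_left
      (mul_ne_zero (pow_ne_zero _ hιφ) (pow_ne_zero _ hιφ))
    exact ⟨fun _ => hι (by rw [h7, map_zero]), fun h => absurd h (by omega), fun h => absurd h (by omega)⟩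

end Pool.Agent.K3h58.AS
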